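import Pool.Agent.H37.UMD.Stmts2

/-!
# Ultimate matching: module DGR, the dual inequality for grid functions on the good event
-/

set_option autoImplicit false

open MeasureTheory ProbabilityTheory Finset

namespace Pool.UMD

/-- The counts of all cells add up to `n`. -/
theorem DGR_cnt {n m : ℕ} (c : Fin n → Fin m × Fin m) :
    ∑ i ∈ range m, ∑ j ∈ range m, (Pool.UMC.cnt c i j : ℝ) = n := by
  have h : ∑ i ∈ range m, ∑ j ∈ range m, Pool.UMC.cnt c i j = n := by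
    unfold Pool.UMC.cnt
    simp_rw [Finset.card_filter]
    calc ∑ i ∈ range m, ∑ j ∈ range m,
          ∑ t : Fin n, (if ((c t).1 : ℕ) = i ∧ ((c t).2 : ℕ) = j then 1 else 0)
        = ∑ i ∈ range m, ∑ t : Fin n, ∑ j ∈ range m,
            (if ((c t).1 : ℕ) = i ∧ ((c t).2 : ℕ) = j then 1 else 0) := by
          refine Finset.sum_congr rfl fun i _ => ?_
          rw [Finset.sum_comm]
      _ = ∑ t : Fin n, ∑ i ∈ range m, ∑ j ∈ range m,
            (if ((c t).1 : ℕ) = i ∧ ((c t).2 : ℕ) = j then 1 else 0) := by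
          rw [Finset.sum_comm]
      _ = ∑ t : Fin n, 1 := by
          refine Finset.sum_congr rfl fun t _ => ?_
          rw [Finset.sum_eq_single ((c t).1 : ℕ)]
          · rw [Finset.sum_eq_single ((c t).2 : ℕ)]
            · simp
            · intro j _ hj
              simp [Ne.symm hj]
            · intro hj
              exact absurd (Finset.mem_range.2 (c t).2.isLt) hj
          · intro i _ hi
            refine Finset.sum_eq_zero fun j _ => ?_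
            simp [Ne.symm hi]
          · intro hi
            exact absurd (Finset.mem_range.2 (c t).1.isLt) hi
      _ = n := by simp
  have := congrArg (fun x : ℕ => (x : ℝ)) h
  simpa using this

theorem DGR_sum_w {n m : ℕ} (cx cy : Fin n → Fin m × Fin m) :
    ∑ i ∈ range m, ∑ j ∈ range m, wc cx cy i j = 0 := by
  unfold wc
  simp_rw [Finset.sum_sub_distrib]
  rw [DGR_cnt, DGR_cnt, sub_self]

theorem DGR_pr_sub (m : ℕ) (w : ℕ → ℕ → ℝ)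
    (hsum : ∑ i ∈ range m, ∑ j ∈ range m, w i j = 0) (F : ℕ → ℕ → ℝ) (c : ℝ) :
    pr m w (fun i j => F i j - c) = pr m w F := by
  unfold pr
  have h : ∀ i j, w i j * (F i j - c) = w i j * F i j - w i j * c := by
    intro i j; ring
  simp_rw [h, Finset.sum_sub_distrib, ← Finset.sum_mul]
  rw [hsum]
  ring

theorem DGR_pr_smul (m : ℕ) (w F : ℕ → ℕ → ℝ) (c : ℝ) :
    pr m w (fun i j => c * F i j) = c * pr m w F := by
  unfold pr
  rw [Finset.mul_sum]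
  refine Finset.sum_congr rfl fun i _ => ?_
  rw [Finset.mul_sum]
  refine Finset.sum_congr rfl fun j _ => ?_
  ring

theorem DGR_Ed1_mono (m : ℕ) (F G : ℕ → ℕ → ℝ) (φ ψ : ℝ → ℝ) (c : ℝ)
    (h : ∀ i j, φ (F (i + 1) j - F i j) ≤ c * ψ (G (i + 1) j - G i j)) :
    Ed1 m F φ ≤ c * Ed1 m G ψ := by
  unfold Ed1
  rw [Finset.mul_sum]
  refine Finset.sum_le_sum fun i _ => ?_
  rw [Finset.mul_sum]
  exact Finset.sum_le_sum fun j _ => h i j

theorem DGR_Ed2_mono (m : ℕ) (F G : ℕ → ℕ → ℝ) (φ ψ : ℝ → ℝ) (c : ℝ)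
    (h : ∀ i j, φ (F i (j + 1) - F i j) ≤ c * ψ (G i (j + 1) - G i j)) :
    Ed2 m F φ ≤ c * Ed2 m G ψ := by
  unfold Ed2
  rw [Finset.mul_sum]
  refine Finset.sum_le_sum fun i _ => ?_
  rw [Finset.mul_sum]
  exact Finset.sum_le_sum fun j _ => h i j

theorem DGR_Ed1_nonneg (m : ℕ) (F : ℕ → ℕ → ℝ) (φ : ℝ → ℝ) (h : ∀ s, 0 ≤ φ s) :
    0 ≤ Ed1 m F φ :=
  Finset.sum_nonneg fun _ _ => Finset.sum_nonneg fun _ _ => h _

theorem DGR_Ed2_nonneg (m : ℕ) (F : ℕ → ℕ → ℝ) (φ : ℝ → ℝ) (h : ∀ s, 0 ≤ φ s) :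
    0 ≤ Ed2 m F φ :=
  Finset.sum_nonneg fun _ _ => Finset.sum_nonneg fun _ _ => h _

theorem DGR_Ed1_single (m : ℕ) (F : ℕ → ℕ → ℝ) (i j : ℕ) (hi : i + 1 < m) (hj : j < m) :
    |F (i + 1) j - F i j| ≤ Ed1 m F (fun s => |s|) := by
  unfold Ed1
  calc |F (i + 1) j - F i j| ≤ ∑ j ∈ range m, |F (i + 1) j - F i j| :=
        Finset.single_le_sum (f := fun j => |F (i + 1) j - F i j|) (fun _ _ => abs_nonneg _)
          (Finset.mem_range.2 hj)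
    _ ≤ _ := Finset.single_le_sum (f := fun i => ∑ j ∈ range m, |F (i + 1) j - F i j|)
          (fun _ _ => Finset.sum_nonneg fun _ _ => abs_nonneg _) (Finset.mem_range.2 (by omega))

theorem DGR_Ed2_single (m : ℕ) (F : ℕ → ℕ → ℝ) (i j : ℕ) (hi : i < m) (hj : j + 1 < m) :
    |F i (j + 1) - F i j| ≤ Ed2 m F (fun s => |s|) := by
  unfold Ed2
  calc |F i (j + 1) - F i j| ≤ ∑ j ∈ range (m - 1), |F i (j + 1) - F i j| :=
        Finset.single_le_sum (f := fun j => |F i (j + 1) - F i j|) (fun _ _ => abs_nonneg _)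
          (Finset.mem_range.2 (by omega))
    _ ≤ _ := Finset.single_le_sum (f := fun i => ∑ j ∈ range (m - 1), |F i (j + 1) - F i j|)
          (fun _ _ => Finset.sum_nonneg fun _ _ => abs_nonneg _) (Finset.mem_range.2 hi)

/-- Size relations between `K`, `n` and `k`. -/
theorem DGR_size {n k : ℕ} {K : ℝ} (hn : 2 ≤ n) (hK : K = n / (4 : ℝ) ^ k)
    (hlog : 10 * Real.log n ≤ K) (hK10 : 10 ≤ K) :
    ((2 * k : ℕ) : ℝ) ≤ K ∧ 4 * ((2 : ℝ) ^ k) ^ 3 ≤ Real.exp K := by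
  have h4 : (0 : ℝ) < (4 : ℝ) ^ k := by positivity
  have hnK : (n : ℝ) = K * (4 : ℝ) ^ k := by
    rw [hK]; field_simp
  have hn0 : (0 : ℝ) < n := by
    have : (2 : ℝ) ≤ n := by exact_mod_cast hn
    linarith
  have h4n : (4 : ℝ) ^ k ≤ n := by
    rw [hnK]
    nlinarith
  have hlog4 : (k : ℝ) * Real.log 4 ≤ Real.log n := by
    rw [← Real.log_pow]
    exact Real.log_le_log h4 h4n
  have hl4 : (1 : ℝ) ≤ Real.log 4 := by
    have h2 : (0.6931471803 : ℝ) < Real.log 2 := Real.log_two_gt_d9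
    have : Real.log 4 = 2 * Real.log 2 := by
      rw [show (4 : ℝ) = 2 ^ 2 by norm_num, Real.log_pow]; norm_num
    rw [this]; linarith
  have hlogn : (k : ℝ) ≤ Real.log n := by
    have hk0 : (0 : ℝ) ≤ k := Nat.cast_nonneg k
    nlinarith
  have hlog0 : 0 ≤ Real.log n := Real.log_nonneg (by
    have : (2 : ℝ) ≤ n := by exact_mod_cast hn
    linarith)
  refine ⟨?_, ?_⟩
  · push_cast
    linarith
  · have h1 : ((2 : ℝ) ^ k) ^ 3 ≤ (4 : ℝ) ^ k * (4 : ℝ) ^ k := by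
      have h2k : (1 : ℝ) ≤ (2 : ℝ) ^ k := one_le_pow₀ (by norm_num)
      have h4' : (4 : ℝ) ^ k = (2 : ℝ) ^ k * (2 : ℝ) ^ k := by
        rw [← mul_pow]; norm_num
      rw [h4']
      have h3 : 0 ≤ (2 : ℝ) ^ k * (2 : ℝ) ^ k * (2 : ℝ) ^ k := by positivity
      nlinarith
    have h2 : 4 * ((4 : ℝ) ^ k * (4 : ℝ) ^ k) ≤ (n : ℝ) ^ 2 := by
      rw [hnK]
      have : (0 : ℝ) ≤ (4 : ℝ) ^ k * (4 : ℝ) ^ k := by positivity
      nlinarith
    have h3 : (n : ℝ) ^ 2 = Real.exp (2 * Real.log n) := by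
      rw [mul_comm, Real.exp_mul, Real.exp_log hn0]
      norm_num
    have h4 : Real.exp (2 * Real.log n) ≤ Real.exp K := Real.exp_le_exp.2 (by linarith)
    calc 4 * ((2 : ℝ) ^ k) ^ 3 ≤ 4 * ((4 : ℝ) ^ k * (4 : ℝ) ^ k) := by linarith
      _ ≤ (n : ℝ) ^ 2 := h2
      _ = Real.exp (2 * Real.log n) := h3
      _ ≤ _ := h4

/-- The statement GDF with the parentheses in the right place. -/
def SGdfP : Prop := ∃ C : ℝ, 0 < C ∧ ∀ (m : ℕ) (F w : ℕ → ℕ → ℝ) (M : ℝ), 1 ≤ m →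
  (∀ i j, |w i j| ≤ M) →
  |(∫ x in Box m, w (fo m ⌊x.1⌋) (fo m ⌊x.2⌋) * GG m F x) - 4 * pr m w F| ≤
    C * M * (Ed1 m F (fun s => |s|) + Ed2 m F (fun s => |s|))

/-- The inequality for one function `F`, given the deterministic theorem for `W`. -/
theorem DGR_aux (β₁ β₂ C₁ C₂ C₃ K : ℝ) (m k : ℕ) (w : ℕ → ℕ → ℝ) (hC₁ : 0 < C₁) (hC₂ : 0 < C₂)
    (hC₃ : 0 < C₃) (hm1 : 1 ≤ m) (hm2 : (m : ℝ) ^ 2 = (4 : ℝ) ^ k) (hK0 : 0 < K)
    (hexp : 4 * (m : ℝ) ^ 3 ≤ Real.exp K)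
    (hsum : ∑ i ∈ range m, ∑ j ∈ range m, w i j = 0)
    (hdtm : ∀ (G G1 G2 : ℝ × ℝ → ℝ) (T : ℝ), Sm G G1 G2 T → T ≤ Real.exp K →
      Per m G → Per m G1 → Per m G2 →
      |∫ x in Box m, Wf m K w x * G x| ≤ C₁ * √K * ∫ x in Box m, th β₁ β₂ 16 (G1 x, G2 x))
    (hGsm : SGsm)
    (hgdf : ∀ F : ℕ → ℕ → ℝ,
      |(∫ x in Box m, w (fo m ⌊x.1⌋) (fo m ⌊x.2⌋) * GG m F x) - 4 * pr m w F| ≤
      C₂ * K * (Ed1 m F (fun s => |s|) + Ed2 m F (fun s => |s|)))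
    (hgth : ∀ F : ℕ → ℕ → ℝ, ∫ x in Box m, th β₁ β₂ 16 (GG1 m F x, GG2 m F x) ≤
      C₃ * ((m : ℝ) ^ 2 + Ed1 m F (psi β₁) + Ed2 m F (psi β₂)))
    (p1a : ∀ s, |s| ≤ psi β₁ s) (p2a : ∀ s, |s| ≤ psi β₂ s)
    (p1d : ∀ s lam, 0 ≤ lam → lam ≤ 1 → psi β₁ (lam * s) ≤ lam * psi β₁ s)
    (p2d : ∀ s lam, 0 ≤ lam → lam ≤ 1 → psi β₂ (lam * s) ≤ lam * psi β₂ s)
    (F : ℕ → ℕ → ℝ) :
    pr m w F ≤ 2 * (C₁ * C₃ + C₂) * K *
      ((4 : ℝ) ^ k + Ed1 m F (psi β₁) + Ed2 m F (psi β₂)) := by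
  have q1 : ∀ s, 0 ≤ psi β₁ s := fun s => le_trans (abs_nonneg s) (p1a s)
  have q2 : ∀ s, 0 ≤ psi β₂ s := fun s => le_trans (abs_nonneg s) (p2a s)
  obtain ⟨C₄, hC₄⟩ : ∃ C₄ : ℝ, C₄ = C₁ * C₃ + C₂ := ⟨_, rfl⟩
  have hC₄0 : 0 < C₄ := by rw [hC₄]; positivity
  rw [← hC₄]
  have hsK : 0 < √K := Real.sqrt_pos.2 hK0
  have hsK2 : √K * √K = K := Real.mul_self_sqrt hK0.le
  -- the core inequality
  have core : ∀ (G : ℕ → ℕ → ℝ) (Δ : ℝ), 0 ≤ Δ → G 0 0 = 0 →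
      (∀ i j, i + 1 < m → j < m → |G (i + 1) j - G i j| ≤ Δ) →
      (∀ i j, i < m → j + 1 < m → |G i (j + 1) - G i j| ≤ Δ) →
      4 * m * Δ ≤ Real.exp K →
      4 * pr m w G ≤ C₄ * K * ((4 : ℝ) ^ k + Ed1 m G (psi β₁) + Ed2 m G (psi β₂)) := by
    intro G Δ hΔ hG0 hd1 hd2 hT
    obtain ⟨hsm, hp0, hp1, hp2⟩ := hGsm m G Δ hm1 hΔ hG0 hd1 hd2
    have e1 := hdtm (GG m G) (GG1 m G) (GG2 m G) (4 * m * Δ) hsm hT hp0 hp1 hp2
    have e2 := hgdf G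
    have e3 := hgth G
    have a1 : Ed1 m G (fun s => |s|) ≤ Ed1 m G (psi β₁) := by
      have := DGR_Ed1_mono m G G (fun s => |s|) (psi β₁) 1 (fun i j => by
        simpa using p1a (G (i + 1) j - G i j))
      simpa using this
    have a2 : Ed2 m G (fun s => |s|) ≤ Ed2 m G (psi β₂) := by
      have := DGR_Ed2_mono m G G (fun s => |s|) (psi β₂) 1 (fun i j => by
        simpa using p2a (G i (j + 1) - G i j))
      simpa using this
    have e4 : ∫ x in Box m, w (fo m ⌊x.1⌋) (fo m ⌊x.2⌋) * GG m G x =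
        √K * ∫ x in Box m, Wf m K w x * GG m G x := by
      rw [← integral_const_mul]
      refine integral_congr_ae (Filter.Eventually.of_forall fun x => ?_)
      simp only [Wf]
      field_simp
    have b1 : 0 ≤ Ed1 m G (psi β₁) := DGR_Ed1_nonneg m G _ q1
    have b2 : 0 ≤ Ed2 m G (psi β₂) := DGR_Ed2_nonneg m G _ q2
    have e5 := abs_le.1 e2
    have e6 : √K * |∫ x in Box m, Wf m K w x * GG m G x| ≤
        C₁ * C₃ * K * ((4 : ℝ) ^ k + Ed1 m G (psi β₁) + Ed2 m G (psi β₂)) := by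
      calc √K * |∫ x in Box m, Wf m K w x * GG m G x|
          ≤ √K * (C₁ * √K * (C₃ * ((m : ℝ) ^ 2 + Ed1 m G (psi β₁) + Ed2 m G (psi β₂)))) := by
            refine mul_le_mul_of_nonneg_left (e1.trans ?_) hsK.le
            exact mul_le_mul_of_nonneg_left e3 (by positivity)
        _ = C₁ * C₃ * (√K * √K) * ((m : ℝ) ^ 2 + Ed1 m G (psi β₁) + Ed2 m G (psi β₂)) := by ring
        _ = _ := by rw [hsK2, hm2]
    have e7 : √K * ∫ x in Box m, Wf m K w x * GG m G x ≤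
        √K * |∫ x in Box m, Wf m K w x * GG m G x| :=
      mul_le_mul_of_nonneg_left (le_abs_self _) hsK.le
    have e8 : C₂ * K * (Ed1 m G (fun s => |s|) + Ed2 m G (fun s => |s|)) ≤
        C₂ * K * ((4 : ℝ) ^ k + Ed1 m G (psi β₁) + Ed2 m G (psi β₂)) := by
      refine mul_le_mul_of_nonneg_left ?_ (by positivity)
      have : (0 : ℝ) ≤ (4 : ℝ) ^ k := by positivity
      linarith
    have e9 : C₄ * K * ((4 : ℝ) ^ k + Ed1 m G (psi β₁) + Ed2 m G (psi β₂)) =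
        C₁ * C₃ * K * ((4 : ℝ) ^ k + Ed1 m G (psi β₁) + Ed2 m G (psi β₂)) +
        C₂ * K * ((4 : ℝ) ^ k + Ed1 m G (psi β₁) + Ed2 m G (psi β₂)) := by
      rw [hC₄]; ring
    rw [e9]
    rw [e4] at e5
    linarith [e5.1]
  -- normalisation
  obtain ⟨F₀, hF₀⟩ : ∃ F₀ : ℕ → ℕ → ℝ, F₀ = fun i j => F i j - F 0 0 := ⟨_, rfl⟩
  have hF₀' : ∀ i j, F₀ i j = F i j - F 0 0 := fun i j => by rw [hF₀]
  have hprF : pr m w F₀ = pr m w F := by
    rw [hF₀]; exact DGR_pr_sub m w hsum F (F 0 0)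
  obtain ⟨Δ, hΔ⟩ : ∃ Δ : ℝ, Δ = Ed1 m F (fun s => |s|) + Ed2 m F (fun s => |s|) := ⟨_, rfl⟩
  have hE1 : 0 ≤ Ed1 m F (fun s => |s|) := DGR_Ed1_nonneg m F _ (fun s => abs_nonneg s)
  have hE2 : 0 ≤ Ed2 m F (fun s => |s|) := DGR_Ed2_nonneg m F _ (fun s => abs_nonneg s)
  have hΔ0 : 0 ≤ Δ := by rw [hΔ]; positivity
  have hd1 : ∀ i j, i + 1 < m → j < m → |F (i + 1) j - F i j| ≤ Δ := by
    intro i j hi hj
    have := DGR_Ed1_single m F i j hi hj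
    linarith
  have hd2 : ∀ i j, i < m → j + 1 < m → |F i (j + 1) - F i j| ≤ Δ := by
    intro i j hi hj
    have := DGR_Ed2_single m F i j hi hj
    linarith
  have hΔψ : Δ ≤ Ed1 m F (psi β₁) + Ed2 m F (psi β₂) := by
    have a1 := DGR_Ed1_mono m F F (fun s => |s|) (psi β₁) 1 (fun i j => by
        simpa using p1a (F (i + 1) j - F i j))
    have a2 := DGR_Ed2_mono m F F (fun s => |s|) (psi β₂) 1 (fun i j => by
        simpa using p2a (F i (j + 1) - F i j))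
    rw [hΔ]; linarith
  have hP1 : 0 ≤ Ed1 m F (psi β₁) := DGR_Ed1_nonneg m F _ q1
  have hP2 : 0 ≤ Ed2 m F (psi β₂) := DGR_Ed2_nonneg m F _ q2
  have h4k : (0 : ℝ) < (4 : ℝ) ^ k := by positivity
  have hm0 : (0 : ℝ) < m := by exact_mod_cast hm1
  have hx : 0 ≤ C₄ * K * ((4 : ℝ) ^ k + Ed1 m F (psi β₁) + Ed2 m F (psi β₂)) := by positivity
  have hx2 : 2 * C₄ * K * ((4 : ℝ) ^ k + Ed1 m F (psi β₁) + Ed2 m F (psi β₂)) =
      2 * (C₄ * K * ((4 : ℝ) ^ k + Ed1 m F (psi β₁) + Ed2 m F (psi β₂))) := by ring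
  by_cases hT : 4 * m * Δ ≤ Real.exp K
  · have h := core F₀ Δ hΔ0 (by rw [hF₀']; ring) (fun i j hi hj => by
      have : F₀ (i + 1) j - F₀ i j = F (i + 1) j - F i j := by rw [hF₀', hF₀']; ring
      rw [this]; exact hd1 i j hi hj) (fun i j hi hj => by
      have : F₀ i (j + 1) - F₀ i j = F i (j + 1) - F i j := by rw [hF₀', hF₀']; ring
      rw [this]; exact hd2 i j hi hj) hT
    have g1 : Ed1 m F₀ (psi β₁) = Ed1 m F (psi β₁) := by simp [Ed1, hF₀]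
    have g2 : Ed2 m F₀ (psi β₂) = Ed2 m F (psi β₂) := by simp [Ed2, hF₀]
    rw [g1, g2, hprF] at h
    rw [hx2]
    linarith
  · push Not at hT
    have hΔpos : 0 < Δ := by
      by_contra hcon
      have : Δ = 0 := le_antisymm (not_lt.1 hcon) hΔ0
      rw [this] at hT
      have := Real.exp_pos K
      linarith
    have hden : 0 < 4 * m * Δ := by positivity
    obtain ⟨lam, hlam⟩ : ∃ lam : ℝ, lam = Real.exp K / (4 * m * Δ) := ⟨_, rfl⟩
    have hlam0 : 0 < lam := by rw [hlam]; exact div_pos (Real.exp_pos K) hden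
    have hlam1 : lam ≤ 1 := by
      rw [hlam, div_le_one hden]; exact hT.le
    have hlamD : 4 * m * (lam * Δ) = Real.exp K := by
      rw [hlam]; field_simp
    have k1 : ∀ i j, lam * F₀ (i + 1) j - lam * F₀ i j = lam * (F (i + 1) j - F i j) := by
      intro i j; rw [hF₀', hF₀']; ring
    have k2 : ∀ i j, lam * F₀ i (j + 1) - lam * F₀ i j = lam * (F i (j + 1) - F i j) := by
      intro i j; rw [hF₀', hF₀']; ring
    have h := core (fun i j => lam * F₀ i j) (lam * Δ) (by positivity)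
      (by simp only [hF₀']; ring)
      (fun i j hi hj => by
        simp only [k1]
        rw [abs_mul, abs_of_pos hlam0]
        exact mul_le_mul_of_nonneg_left (hd1 i j hi hj) hlam0.le)
      (fun i j hi hj => by
        simp only [k2]
        rw [abs_mul, abs_of_pos hlam0]
        exact mul_le_mul_of_nonneg_left (hd2 i j hi hj) hlam0.le) hlamD.le
    rw [DGR_pr_smul, hprF] at h
    have g1 : Ed1 m (fun i j => lam * F₀ i j) (psi β₁) ≤ lam * Ed1 m F (psi β₁) :=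
      DGR_Ed1_mono m _ _ _ _ _ fun i j => by
        simp only [k1]
        exact p1d _ _ hlam0.le hlam1
    have g2 : Ed2 m (fun i j => lam * F₀ i j) (psi β₂) ≤ lam * Ed2 m F (psi β₂) :=
      DGR_Ed2_mono m _ _ _ _ _ fun i j => by
        simp only [k2]
        exact p2d _ _ hlam0.le hlam1
    have g3 : (4 : ℝ) ^ k ≤ lam * (Ed1 m F (psi β₁) + Ed2 m F (psi β₂)) := by
      have h5 : 4 * (m : ℝ) * (4 : ℝ) ^ k ≤ Real.exp K := by
        have : 4 * (m : ℝ) * (4 : ℝ) ^ k = 4 * (m : ℝ) ^ 3 := by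
          rw [← hm2]; ring
        rw [this]; exact hexp
      have h6 : (4 : ℝ) ^ k ≤ lam * Δ := by
        have : 4 * (m : ℝ) * (4 : ℝ) ^ k ≤ 4 * m * (lam * Δ) := by rw [hlamD]; exact h5
        exact le_of_mul_le_mul_left this (by positivity)
      exact h6.trans (mul_le_mul_of_nonneg_left hΔψ hlam0.le)
    have h7 : 4 * (lam * pr m w F) ≤ C₄ * K *
        (2 * (lam * ((4 : ℝ) ^ k + Ed1 m F (psi β₁) + Ed2 m F (psi β₂)))) := by
      refine h.trans (mul_le_mul_of_nonneg_left ?_ (by positivity))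
      have : 0 ≤ lam * (4 : ℝ) ^ k := by positivity
      nlinarith
    have h8 : lam * (4 * pr m w F) ≤ lam * (2 * C₄ * K *
        ((4 : ℝ) ^ k + Ed1 m F (psi β₁) + Ed2 m F (psi β₂))) := by
      calc lam * (4 * pr m w F) = 4 * (lam * pr m w F) := by ring
        _ ≤ _ := h7
        _ = _ := by ring
    have h9 := le_of_mul_le_mul_left h8 hlam0
    rw [hx2] at h9 ⊢
    linarith

/-- Per module FOL: the step function is admissible. -/
theorem DGR_W (hFol : SFol) (m : ℕ) (hm1 : 1 ≤ m) (K : ℝ) (hK0 : 0 < K) (w : ℕ → ℕ → ℝ)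
    (hw : ∀ i j, |w i j| ≤ K) (hsum : ∑ i ∈ range m, ∑ j ∈ range m, w i j = 0) :
    Bd (Wf m K w) √K ∧ Per m (Wf m K w) ∧ ∫ x in Box m, Wf m K w x = 0 := by
  have hsK : 0 < √K := Real.sqrt_pos.2 hK0
  have hsK2 : √K * √K = K := Real.mul_self_sqrt hK0.le
  obtain ⟨-, -, hfol⟩ := hFol m hm1
  obtain ⟨hWm, hWp, hWi⟩ := hfol (fun i j => w i j / √K)
  refine ⟨⟨hWm, fun x => ?_⟩, hWp, ?_⟩
  · unfold Wf
    rw [abs_div, abs_of_pos hsK, div_le_iff₀ hsK, hsK2]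
    exact hw _ _
  · have : ∫ x in Box m, Wf m K w x = 4 * ∑ i ∈ range m, ∑ j ∈ range m, w i j / √K := hWi
    rw [this]
    simp_rw [← Finset.sum_div]
    rw [hsum]
    simp

theorem sDgr (hDtm : SDtm) (hGsm : SGsm) (hGdf : SGdfP) (hGth : SGth) (hPsi : SPsi)
    (hFol : SFol) : SDgr := by
  intro β₁ β₂ hβ₁ hβ₂ hβ D hD hNet Cv c Ch Cr hCv hc
  obtain ⟨C₁, hC₁, hdtm⟩ := hDtm β₁ β₂ hβ₁ hβ₂ hβ D hD hNet Cv c Ch Cr hCv hc
  obtain ⟨C₂, hC₂, hgdf⟩ := hGdf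
  obtain ⟨C₃, hC₃, hgth⟩ := hGth β₁ β₂ hβ₁ hβ₂ hβ
  obtain ⟨p1a, p1b, p1c, p1d⟩ := hPsi β₁ hβ₁ (by linarith)
  obtain ⟨p2a, p2b, p2c, p2d⟩ := hPsi β₂ hβ₂ (by linarith)
  refine ⟨2 * (C₁ * C₃ + C₂), by positivity, ?_⟩
  intro n k K Λ hn hK hlog hK10 hΛ cx cy hgd F
  obtain ⟨hs1, hs2⟩ := DGR_size hn hK hlog hK10
  obtain ⟨hw, hroot, hZ⟩ := hgd
  have hsum := DGR_sum_w cx cy
  have hm1 : 1 ≤ 2 ^ k := Nat.one_le_two_pow
  have hmR : ((2 ^ k : ℕ) : ℝ) = (2 : ℝ) ^ k := by push_cast; rfl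
  have hm2 : ((2 ^ k : ℕ) : ℝ) ^ 2 = (4 : ℝ) ^ k := by
    rw [hmR, ← pow_mul, mul_comm, pow_mul]; norm_num
  have h22 : (2 : ℝ) ^ (2 * k) = (4 : ℝ) ^ k := by rw [pow_mul]; norm_num
  have hK0 : 0 < K := by linarith
  generalize wc cx cy = w at hw hroot hZ hsum ⊢
  generalize 2 ^ k = m at hw hroot hZ hsum hm1 hmR hm2 ⊢
  obtain ⟨hWb, hWp, hWi⟩ := DGR_W hFol m hm1 K hK0 w hw hsum
  refine DGR_aux β₁ β₂ C₁ C₂ C₃ K m k w hC₁ hC₂ hC₃ hm1 hm2 hK0 ?_ hsum ?_ hGsm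
    (fun G => hgdf m G w K hm1 hw) (fun G => hgth m G hm1) p1a p2a p1d p2d F
  · rw [hmR]; exact hs2
  · refine hdtm m K Λ (2 * k) hm1 hK10 hΛ ?_ ?_ hs1 (Wf m K w) hWb hWp hWi ?_ hZ
    · rw [hm2, h22]
    · rw [hm2, h22]
      have : (0 : ℝ) ≤ (4 : ℝ) ^ k := by positivity
      linarith
    · intro a
      rw [hmR]
      exact hroot a

end Pool.UMD
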